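import Pool.Agent.R745.SJ.Ramsey

/-!
# Colour classes of the signed orthogonality graph with `k = 4`
-/

set_option autoImplicit false
open Finset

namespace Pool.Agent.R745.SJ

/-- vectors with entries `-1, 0, 1` and exactly `k` non-zero entries -/
def IsVec (n k : ℕ) (v : Fin n → ℤ) : Prop :=
  (∀ i, v i = -1 ∨ v i = 0 ∨ v i = 1) ∧ (Finset.univ.filter (fun i => v i ≠ 0)).card = k

/-- the support -/
def supp {n : ℕ} (v : Fin n → ℤ) : Finset (Fin n) := Finset.univ.filter (fun i => v i ≠ 0)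

theorem mem_supp {n : ℕ} {v : Fin n → ℤ} {i : Fin n} : i ∈ supp v ↔ v i ≠ 0 := by simp [supp]

/-- 4-sets containing `x, y` -/
def P2 {n : ℕ} (x y : Fin n) : Finset (Finset (Fin n)) :=
  (Finset.univ : Finset (Fin n × Fin n)).image (fun p => {x, y, p.1, p.2})

theorem card_P2 {n : ℕ} (x y : Fin n) : (P2 x y).card ≤ n ^ 2 := by
  refine Finset.card_image_le.trans ?_
  simp [sq]

theorem mem_P2 {n : ℕ} {x y : Fin n} {A : Finset (Fin n)} (hA : A.card = 4) (hx : x ∈ A)
    (hy : y ∈ A) (hxy : x ≠ y) : A ∈ P2 x y := by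
  have h1 : ((A.erase x).erase y).card = 2 := by
    rw [Finset.card_erase_of_mem (Finset.mem_erase.2 ⟨hxy.symm, hy⟩),
      Finset.card_erase_of_mem hx, hA]
  obtain ⟨p, q, -, hpq⟩ := Finset.card_eq_two.1 h1
  rw [P2, Finset.mem_image]
  refine ⟨(p, q), Finset.mem_univ _, ?_⟩
  simp only
  rw [← hpq, Finset.insert_erase (Finset.mem_erase.2 ⟨hxy.symm, hy⟩), Finset.insert_erase hx]

/-- 4-sets containing `x, y, z` -/
def P3 {n : ℕ} (x y z : Fin n) : Finset (Finset (Fin n)) :=
  (Finset.univ : Finset (Fin n)).image (fun p => {x, y, z, p})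

theorem card_P3 {n : ℕ} (x y z : Fin n) : (P3 x y z).card ≤ n := by
  refine Finset.card_image_le.trans ?_
  simp

theorem mem_P3 {n : ℕ} {x y z : Fin n} {A : Finset (Fin n)} (hA : A.card = 4) (hx : x ∈ A)
    (hy : y ∈ A) (hz : z ∈ A) (hxy : x ≠ y) (hxz : x ≠ z) (hyz : y ≠ z) : A ∈ P3 x y z := by
  have m1 : y ∈ A.erase x := Finset.mem_erase.2 ⟨hxy.symm, hy⟩
  have m2 : z ∈ (A.erase x).erase y :=
    Finset.mem_erase.2 ⟨hyz.symm, Finset.mem_erase.2 ⟨hxz.symm, hz⟩⟩
  have h1 : (((A.erase x).erase y).erase z).card = 1 := by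
    rw [Finset.card_erase_of_mem m2, Finset.card_erase_of_mem m1,
      Finset.card_erase_of_mem hx, hA]
  obtain ⟨p, hp⟩ := Finset.card_eq_one.1 h1
  rw [P3, Finset.mem_image]
  refine ⟨p, Finset.mem_univ _, ?_⟩
  rw [← hp, Finset.insert_erase m2, Finset.insert_erase m1, Finset.insert_erase hx]

section
variable {n : ℕ} (F : (Fin n → ℤ) → Prop)

/-- `F` is a star with centre `i` -/
def StarAt (i : Fin n) : Prop := ∀ v, F v → v i ≠ 0

/-- both signs occur on the link of `a` -/
def Mixed (i a : Fin n) : Prop := (∃ v, F v ∧ v i * v a = 1) ∧ (∃ v, F v ∧ v i * v a = -1)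

variable {F} (hV : ∀ v, F v → IsVec n 4 v)
  (hF : ∀ u v, F u → F v → u ≠ v → ∑ i, u i * v i ≠ 0)

include hV hF in
/-- supports of members of a class meet -/
theorem supp_inter {u v : Fin n → ℤ} (hu : F u) (hv : F v) : ∃ x, x ∈ supp u ∧ x ∈ supp v := by
  by_cases h : u = v
  · subst h
    have h4 : (supp u).card = 4 := (hV u hu).2
    obtain ⟨x, hx⟩ : (supp u).Nonempty := by
      rw [← Finset.card_pos, h4]
      norm_num
    exact ⟨x, hx, hx⟩
  · by_contra hcon
    push Not at hcon
    apply hF u v hu hv h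
    apply Finset.sum_eq_zero
    intro i _
    by_cases hi : u i = 0
    · simp [hi]
    · have := hcon i (mem_supp.2 hi)
      rw [mem_supp, not_not] at this
      simp [this]

include hV hF in
/-- a class which is not a star has few supports -/
theorem nonstar_supports [NeZero n] (h : ∀ i, ¬ StarAt F i) :
    ∃ E : Finset (Finset (Fin n)), E.card ≤ 16 * n ^ 2 ∧ ∀ v, F v → supp v ∈ E := by
  classical
  have h0 := h 0
  rw [StarAt] at h0
  push Not at h0
  obtain ⟨u, hu, -⟩ := h0
  have hw : ∀ x : Fin n, ∃ w, F w ∧ w x = 0 := by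
    intro x
    have := h x
    rw [StarAt] at this
    push Not at this
    exact this
  choose w hwF hw0 using hw
  refine ⟨(supp u).biUnion fun x => (supp (w x)).biUnion fun y =>
    if x = y then ∅ else P2 x y, ?_, ?_⟩
  · have h4 : (supp u).card = 4 := (hV u hu).2
    have hb : ∀ x ∈ supp u, ((supp (w x)).biUnion fun y =>
        if x = y then ∅ else P2 x y).card ≤ 4 * n ^ 2 := by
      intro x _
      have h4' : (supp (w x)).card = 4 := (hV _ (hwF x)).2
      rw [← h4']
      apply Finset.card_biUnion_le_card_mul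
      intro y _
      split_ifs
      · simp
      · exact card_P2 x y
    have := Finset.card_biUnion_le_card_mul _ _ _ hb
    rw [h4] at this
    linarith
  · intro v hv
    obtain ⟨x, hx1, hx2⟩ := supp_inter hV hF hu hv
    obtain ⟨y, hy1, hy2⟩ := supp_inter hV hF (hwF x) hv
    have hxy : x ≠ y := by
      rintro rfl
      rw [mem_supp] at hy1
      exact hy1 (hw0 x)
    rw [Finset.mem_biUnion]
    refine ⟨x, hx1, ?_⟩
    rw [Finset.mem_biUnion]
    refine ⟨y, hy1, ?_⟩
    rw [if_neg hxy]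
    exact mem_P2 (hV v hv).2 hx2 hy2 hxy

theorem mul_cases {a b : ℤ} (ha : a = -1 ∨ a = 0 ∨ a = 1) (hb : b = -1 ∨ b = 0 ∨ b = 1)
    (ha0 : a ≠ 0) (hb0 : b ≠ 0) : a * b = 1 ∨ a * b = -1 := by
  rcases ha with rfl | rfl | rfl <;> rcases hb with rfl | rfl | rfl <;> simp_all

include hV hF in
/-- a third common support element -/
theorem third {u v : Fin n → ℤ} (hu : F u) (hv : F v) {i a : Fin n} (hia : i ≠ a)
    (hs : u i * u a * (v i * v a) = -1) : ∃ j, j ≠ i ∧ j ≠ a ∧ j ∈ supp u ∧ j ∈ supp v := by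
  have hne : u ≠ v := by
    rintro rfl
    nlinarith [sq_nonneg (u i * u a)]
  by_contra hcon
  push Not at hcon
  apply hF u v hu hv hne
  have h0 : ∀ c ∈ Finset.univ, c ≠ i ∧ c ≠ a → u c * v c = 0 := by
    intro c _ hc
    by_cases hi : u c = 0
    · simp [hi]
    · have := hcon c hc.1 hc.2 (mem_supp.2 hi)
      rw [mem_supp, not_not] at this
      simp [this]
  rw [Finset.sum_eq_add i a hia h0 (by simp) (by simp)]
  have e1 := (hV u hu).1 i
  have e2 := (hV u hu).1 a
  have e3 := (hV v hv).1 i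
  have e4 := (hV v hv).1 a
  rcases e1 with e1 | e1 | e1 <;> rcases e2 with e2 | e2 | e2 <;> rcases e3 with e3 | e3 | e3 <;>
    rcases e4 with e4 | e4 | e4 <;> simp_all

include hV hF in
/-- in a star, the exceptional members have few supports -/
theorem star_supports {i : Fin n} (h : StarAt F i) :
    ∃ E : Finset (Finset (Fin n)), E.card ≤ 16 * n ^ 2 ∧
      ∀ v, F v → (∃ a, a ≠ i ∧ v a ≠ 0 ∧ Mixed F i a) → supp v ∈ E := by
  classical
  have key : ∀ a : Fin n, a ≠ i → Mixed F i a → ∃ E : Finset (Finset (Fin n)),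
      E.card ≤ 8 * n ∧ ∀ v, F v → v a ≠ 0 → supp v ∈ E := by
    intro a ha hm
    obtain ⟨⟨u, hu, hu1⟩, ⟨w, hw, hw1⟩⟩ := hm
    refine ⟨((supp u).biUnion fun j => if j = i ∨ j = a then ∅ else P3 i a j) ∪
      ((supp w).biUnion fun j => if j = i ∨ j = a then ∅ else P3 i a j), ?_, ?_⟩
    · have hb : ∀ x : Fin n → ℤ, F x →
          ((supp x).biUnion fun j => if j = i ∨ j = a then ∅ else P3 i a j).card ≤ 4 * n := by
        intro x hx
        have h4 : (supp x).card = 4 := (hV _ hx).2
        rw [← h4]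
        apply Finset.card_biUnion_le_card_mul
        intro y _
        split_ifs
        · simp
        · exact card_P3 i a y
      have := Finset.card_union_le ((supp u).biUnion fun j => if j = i ∨ j = a then ∅ else P3 i a j)
        ((supp w).biUnion fun j => if j = i ∨ j = a then ∅ else P3 i a j)
      have h1 := hb u hu
      have h2 := hb w hw
      omega
    · intro v hv hva
      have hvi := h v hv
      have hcase : ∀ x : Fin n → ℤ, F x → x i * x a * (v i * v a) = -1 →
          supp v ∈ (supp x).biUnion fun j => if j = i ∨ j = a then ∅ else P3 i a j := by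
        intro x hx hs
        obtain ⟨j, hj1, hj2, hj3, hj4⟩ := third hV hF hx hv ha.symm hs
        rw [Finset.mem_biUnion]
        refine ⟨j, hj3, ?_⟩
        rw [if_neg (by tauto)]
        exact mem_P3 (hV v hv).2 (mem_supp.2 hvi) (mem_supp.2 hva) hj4 ha.symm hj1.symm hj2.symm
      rw [Finset.mem_union]
      rcases mul_cases ((hV v hv).1 i) ((hV v hv).1 a) hvi hva with h1 | h1
      · right
        exact hcase w hw (by rw [hw1, h1]; norm_num)
      · left
        exact hcase u hu (by rw [hu1, h1]; norm_num)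
  have key' : ∀ a : Fin n, ∃ E : Finset (Finset (Fin n)),
      E.card ≤ 8 * n ∧ ∀ v, F v → v a ≠ 0 → a ≠ i → Mixed F i a → supp v ∈ E := by
    intro a
    by_cases ha : a ≠ i ∧ Mixed F i a
    · obtain ⟨E, hE, hE'⟩ := key a ha.1 ha.2
      exact ⟨E, hE, fun v hv hva _ _ => hE' v hv hva⟩
    · exact ⟨∅, by simp, fun v _ _ h1 h2 => absurd ⟨h1, h2⟩ ha⟩
  choose E hE hE' using key'
  refine ⟨Finset.univ.biUnion E, ?_, ?_⟩
  · have := Finset.card_biUnion_le_card_mul Finset.univ E (8 * n) (fun a _ => hE a)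
    rw [Finset.card_univ, Fintype.card_fin] at this
    nlinarith
  · rintro v hv ⟨a, ha, hva, hm⟩
    rw [Finset.mem_biUnion]
    exact ⟨a, Finset.mem_univ _, hE' a v hv hva ha hm⟩

end

end Pool.Agent.R745.SJ
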