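import Pool.Agent.R745.SJ.Classes

/-!
# The chromatic number of the signed orthogonality graph with `k = 4` is superlinear
-/

set_option autoImplicit false
open Finset

namespace Pool.Agent.R745.SJ

/-- the vector `+1, -1, +1, -1` at four places -/
def qv {n : ℕ} (x1 x2 x3 x4 : Fin n) : Fin n → ℤ := fun i =>
  if i = x1 then 1 else if i = x2 then -1 else if i = x3 then 1 else if i = x4 then -1 else 0

section
variable {n : ℕ} {x1 x2 x3 x4 : Fin n} (h12 : x1 ≠ x2) (h13 : x1 ≠ x3) (h14 : x1 ≠ x4)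
  (h23 : x2 ≠ x3) (h24 : x2 ≠ x4) (h34 : x3 ≠ x4)

theorem qv1 : qv x1 x2 x3 x4 x1 = 1 := by simp [qv]

include h12 in
theorem qv2 : qv x1 x2 x3 x4 x2 = -1 := by simp [qv, h12.symm]

include h13 h23 in
theorem qv3 : qv x1 x2 x3 x4 x3 = 1 := by simp [qv, h13.symm, h23.symm]

include h14 h24 h34 in
theorem qv4 : qv x1 x2 x3 x4 x4 = -1 := by simp [qv, h14.symm, h24.symm, h34.symm]

theorem qv0 {i : Fin n} (h1 : i ≠ x1) (h2 : i ≠ x2) (h3 : i ≠ x3) (h4 : i ≠ x4) :
    qv x1 x2 x3 x4 i = 0 := by simp [qv, h1, h2, h3, h4]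

include h12 h13 h14 h23 h24 h34 in
theorem supp_qv : supp (qv x1 x2 x3 x4) = {x1, x2, x3, x4} := by
  ext i
  rw [mem_supp]
  simp only [Finset.mem_insert, Finset.mem_singleton]
  constructor
  · intro h
    by_contra hcon
    push Not at hcon
    exact h (qv0 hcon.1 hcon.2.1 hcon.2.2.1 hcon.2.2.2)
  · rintro (rfl | rfl | rfl | rfl)
    · rw [qv1]; norm_num
    · rw [qv2 h12]; norm_num
    · rw [qv3 h13 h23]; norm_num
    · rw [qv4 h14 h24 h34]; norm_num

include h12 h13 h14 h23 h24 h34 in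
theorem isVec_qv : IsVec n 4 (qv x1 x2 x3 x4) := by
  refine ⟨fun i => ?_, ?_⟩
  · rw [qv]
    split_ifs <;> simp
  · have := supp_qv h12 h13 h14 h23 h24 h34
    rw [supp] at this
    rw [this]
    rw [Finset.card_insert_of_notMem, Finset.card_insert_of_notMem, Finset.card_insert_of_notMem,
      Finset.card_singleton]
    · simp [h34]
    · simp [h23, h24]
    · simp [h12, h13, h14]

end

/-- finite sets of size at most `m` are covered by `Fin m` -/
theorem exists_cover {α : Type*} [DecidableEq α] [Inhabited α] (S : Finset α) (m : ℕ)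
    (h : S.card ≤ m) : ∃ f : Fin m → α, ∀ s ∈ S, ∃ j, f j = s := by
  refine ⟨fun j => if hj : (j : ℕ) < S.card then (S.equivFin.symm ⟨j, hj⟩ : α) else default, ?_⟩
  intro s hs
  refine ⟨⟨S.equivFin ⟨s, hs⟩, lt_of_lt_of_le (Fin.is_lt _) h⟩, ?_⟩
  simp

theorem num_aux {n N C B : ℕ} (hn : 12 ≤ n) (hN : n ≤ 2 * N)
    (h : N.choose 4 ≤ C * n * (16 * n ^ 2) * B) : n ≤ 98304 * C * B := by
  have h1 : (N + 1 - 4) ^ 4 ≤ N.descFactorial 4 := Nat.pow_sub_le_descFactorial N 4
  have h2 : N.descFactorial 4 = 24 * N.choose 4 := by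
    rw [Nat.descFactorial_eq_factorial_mul_choose]
    rfl
  have h3 : n ≤ 4 * (N + 1 - 4) := by omega
  have h4 : n ^ 4 ≤ (4 * (N + 1 - 4)) ^ 4 := Nat.pow_le_pow_left h3 4
  have h5 : (4 * (N + 1 - 4)) ^ 4 = 256 * (N + 1 - 4) ^ 4 := by
    rw [Nat.mul_pow]
  have h6 : n ^ 4 ≤ 256 * (24 * (C * n * (16 * n ^ 2) * B)) := by
    calc n ^ 4 ≤ 256 * (N + 1 - 4) ^ 4 := by rw [← h5]; exact h4
      _ ≤ 256 * (24 * N.choose 4) := by rw [← h2]; exact Nat.mul_le_mul_left _ h1
      _ ≤ _ := by gcongr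
  have h7 : n ^ 3 * n ≤ n ^ 3 * (98304 * C * B) := by
    calc n ^ 3 * n = n ^ 4 := by ring
      _ ≤ _ := h6
      _ = _ := by ring
  exact Nat.le_of_mul_le_mul_left h7 (by positivity)

/-- The core of the argument, for fixed `n`. -/
theorem classes_core {n C R : ℕ} [NeZero n] (hC : 1 ≤ C) (hR4 : 4 ≤ R)
    (hR : ∀ (lam : Fin n → Fin n → (Fin (2 * C) → Prop)) (T : Finset (Fin n)), R ≤ T.card →
      ∃ x1 ∈ T, ∃ x2 ∈ T, ∃ x3 ∈ T, ∃ x4 ∈ T, x1 ≠ x2 ∧ x1 ≠ x3 ∧ x1 ≠ x4 ∧ x2 ≠ x3 ∧ x2 ≠ x4 ∧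
        x3 ≠ x4 ∧ lam x1 x2 = lam x1 x3 ∧ lam x2 x3 = lam x2 x4 ∧ lam x3 x1 = lam x3 x2 ∧
        lam x4 x1 = lam x4 x2)
    (F : Fin (C * n) → (Fin n → ℤ) → Prop) (hV : ∀ κ v, F κ v → IsVec n 4 v)
    (hF : ∀ κ u v, F κ u → F κ v → u ≠ v → ∑ i, u i * v i ≠ 0)
    (hcov : ∀ v, IsVec n 4 v → ∃ κ, F κ v) (hn : 12 ≤ n) (hnR : 2 * R ≤ n) :
    n ≤ 98304 * C * R.choose 4 := by
  classical
  have hn0 : 0 < n := by omega
  haveI : NeZero (C * n) := ⟨by positivity⟩
  -- centres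
  obtain ⟨cen, hcen⟩ : ∃ cen : Fin (C * n) → Fin n, ∀ κ, (∃ i, StarAt (F κ) i) →
      StarAt (F κ) (cen κ) := by
    have : ∀ κ, ∃ i, (∃ i, StarAt (F κ) i) → StarAt (F κ) i := by
      intro κ
      by_cases h : ∃ i, StarAt (F κ) i
      · obtain ⟨i, hi⟩ := h
        exact ⟨i, fun _ => hi⟩
      · exact ⟨0, fun h' => absurd h' h⟩
    choose cen hcen using this
    exact ⟨cen, hcen⟩
  -- exceptional supports
  have hEx : ∀ κ, ∃ E : Finset (Finset (Fin n)), E.card ≤ 16 * n ^ 2 ∧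
      ∀ v, F κ v → ((∃ i, StarAt (F κ) i) →
        ∃ a, a ≠ cen κ ∧ v a ≠ 0 ∧ Mixed (F κ) (cen κ) a) → supp v ∈ E := by
    intro κ
    by_cases h : ∃ i, StarAt (F κ) i
    · obtain ⟨E, hE, hE'⟩ := star_supports (hV κ) (hF κ) (hcen κ h)
      exact ⟨E, hE, fun v hv hx => hE' v hv (hx h)⟩
    · obtain ⟨E, hE, hE'⟩ := nonstar_supports (hV κ) (hF κ) (fun i hi => h ⟨i, hi⟩)
      exact ⟨E, hE, fun v hv _ => hE' v hv⟩
  choose Ex hEx1 hEx2 using hEx
  set E : Finset (Finset (Fin n)) := (Finset.univ.biUnion Ex).filter (fun A => A.card = 4) with hE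
  have hEcard : E.card ≤ C * n * (16 * n ^ 2) := by
    refine (Finset.card_filter_le _ _).trans ?_
    have := Finset.card_biUnion_le_card_mul Finset.univ Ex _ (fun κ _ => hEx1 κ)
    rwa [Finset.card_univ, Fintype.card_fin] at this
  -- good centres
  set S : Fin n → Finset (Fin (C * n)) := fun i =>
    Finset.univ.filter (fun κ => cen κ = i) with hS
  set I : Finset (Fin n) := Finset.univ.filter (fun i => (S i).card ≤ 2 * C) with hI
  have hIc : 2 * (Finset.univ \ I).card ≤ n := by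
    have h1 : ∑ i ∈ Finset.univ \ I, (S i).card ≤ C * n := by
      calc ∑ i ∈ Finset.univ \ I, (S i).card ≤ ∑ i : Fin n, (S i).card :=
            Finset.sum_le_sum_of_subset (Finset.subset_univ _)
        _ = (Finset.univ : Finset (Fin (C * n))).card := by
            rw [Finset.card_eq_sum_card_fiberwise (f := cen) (t := Finset.univ)
              (fun _ _ => Finset.mem_coe.2 (Finset.mem_univ _))]
        _ = C * n := by simp
    have h2 : (Finset.univ \ I).card * (2 * C) ≤ ∑ i ∈ Finset.univ \ I, (S i).card := by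
      rw [← smul_eq_mul]
      apply Finset.card_nsmul_le_sum
      intro i hi
      rw [Finset.mem_sdiff, hI, Finset.mem_filter] at hi
      push Not at hi
      exact (hi.2 (Finset.mem_univ _)).le
    have h3 : C * (2 * (Finset.univ \ I).card) ≤ C * n := by
      calc C * (2 * (Finset.univ \ I).card) = (Finset.univ \ I).card * (2 * C) := by ring
        _ ≤ _ := h2.trans h1
    exact Nat.le_of_mul_le_mul_left h3 (by omega)
  have hIcard : n ≤ 2 * I.card := by
    have := Finset.card_sdiff_of_subset (Finset.subset_univ I)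
    rw [Finset.card_univ, Fintype.card_fin] at this
    have h4 := Finset.card_le_univ I
    rw [Fintype.card_fin] at h4
    omega
  -- labels
  have hlab : ∀ i : Fin n, ∃ f : Fin (2 * C) → Fin (C * n), i ∈ I →
      ∀ κ, cen κ = i → ∃ j, f j = κ := by
    intro i
    by_cases hi : i ∈ I
    · rw [hI, Finset.mem_filter] at hi
      haveI : Inhabited (Fin (C * n)) := ⟨0⟩
      obtain ⟨f, hf⟩ := exists_cover (S i) (2 * C) hi.2
      refine ⟨f, fun _ κ hκ => hf κ ?_⟩
      rw [hS]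
      simp [hκ]
    · exact ⟨fun _ => 0, fun h => absurd h hi⟩
  choose f hf using hlab
  set eps : Fin (C * n) → Fin n → Prop := fun κ a => ∃ v, F κ v ∧ v (cen κ) * v a = 1 with heps
  have key : ∀ T ⊆ I, T.card = R → ∃ A ∈ E, A ⊆ T := by
    intro T hTI hT
    obtain ⟨x1, hx1, x2, hx2, x3, hx3, x4, hx4, h12, h13, h14, h23, h24, h34, l1, l2, l3, l4⟩ :=
      hR (fun i a j => eps (f i j) a) T hT.ge
    refine ⟨supp (qv x1 x2 x3 x4), ?_, ?_⟩
    · rw [hE, Finset.mem_filter, Finset.mem_biUnion]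
      have hv := isVec_qv h12 h13 h14 h23 h24 h34
      refine ⟨?_, hv.2⟩
      obtain ⟨κ, hκ⟩ := hcov _ hv
      refine ⟨κ, Finset.mem_univ _, hEx2 κ _ hκ ?_⟩
      intro hst
      by_contra hcon
      push Not at hcon
      have hne := hcen κ hst _ hκ
      -- the sign is determined
      have hpos : ∀ a, qv x1 x2 x3 x4 (cen κ) * qv x1 x2 x3 x4 a = 1 → eps κ a :=
        fun a ha => ⟨_, hκ, ha⟩
      have hneg : ∀ a, a ≠ cen κ → qv x1 x2 x3 x4 a ≠ 0 →
          qv x1 x2 x3 x4 (cen κ) * qv x1 x2 x3 x4 a = -1 → ¬ eps κ a := by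
        intro a ha ha0 ha1 hep
        exact hcon a ha ha0 ⟨hep, ⟨_, hκ, ha1⟩⟩
      have hlam : ∀ i ∈ I, cen κ = i → ∀ a b,
          (fun j => eps (f i j) a) = (fun j => eps (f i j) b) → (eps κ a ↔ eps κ b) := by
        intro i hi hci a b hab
        obtain ⟨j, hj⟩ := hf i hi κ hci
        have := congrFun hab j
        simp only [hj] at this
        rw [this]
      have e1 : qv x1 x2 x3 x4 x1 = 1 := qv1
      have e2 : qv x1 x2 x3 x4 x2 = -1 := qv2 h12
      have e3 : qv x1 x2 x3 x4 x3 = 1 := qv3 h13 h23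
      have e4 : qv x1 x2 x3 x4 x4 = -1 := qv4 h14 h24 h34
      have hmem : cen κ = x1 ∨ cen κ = x2 ∨ cen κ = x3 ∨ cen κ = x4 := by
        by_contra hc
        push Not at hc
        exact hne (qv0 hc.1 hc.2.1 hc.2.2.1 hc.2.2.2)
      rcases hmem with hc | hc | hc | hc
      · have p := hpos x3 (by rw [hc, e1, e3]; norm_num)
        have q := hneg x2 (by rw [hc]; exact h12.symm) (by rw [e2]; norm_num)
          (by rw [hc, e1, e2]; norm_num)
        exact q ((hlam x1 (hTI hx1) hc x2 x3 l1).2 p)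
      · have p := hpos x4 (by rw [hc, e2, e4]; norm_num)
        have q := hneg x3 (by rw [hc]; exact h23.symm) (by rw [e3]; norm_num)
          (by rw [hc, e2, e3]; norm_num)
        exact q ((hlam x2 (hTI hx2) hc x3 x4 l2).2 p)
      · have p := hpos x1 (by rw [hc, e1, e3]; norm_num)
        have q := hneg x2 (by rw [hc]; exact h23) (by rw [e2]; norm_num)
          (by rw [hc, e3, e2]; norm_num)
        exact q ((hlam x3 (hTI hx3) hc x1 x2 l3).1 p)
      · have p := hpos x2 (by rw [hc, e2, e4]; norm_num)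
        have q := hneg x1 (by rw [hc]; exact h14) (by rw [e1]; norm_num)
          (by rw [hc, e4, e1]; norm_num)
        exact q ((hlam x4 (hTI hx4) hc x1 x2 l4).2 p)
    · rw [supp_qv h12 h13 h14 h23 h24 h34]
      intro y hy
      simp only [Finset.mem_insert, Finset.mem_singleton] at hy
      rcases hy with rfl | rfl | rfl | rfl <;> assumption
  have hsat := supersat I E hR4 (by omega) (fun A hA => (Finset.mem_filter.1 hA).2) key
  exact num_aux hn hIcard (hsat.trans (Nat.mul_le_mul_right _ hEcard))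

/-- The main statement for families of classes. -/
theorem classes_bound (C : ℕ) : ∃ n₀ : ℕ, ∀ n, n₀ ≤ n →
    ¬ ∃ F : Fin (C * n) → (Fin n → ℤ) → Prop, (∀ κ v, F κ v → IsVec n 4 v) ∧
      (∀ κ u v, F κ u → F κ v → u ≠ v → ∑ i, u i * v i ≠ 0) ∧
      (∀ v, IsVec n 4 v → ∃ κ, F κ v) := by
  classical
  obtain ⟨R, hR4, hR⟩ := exists_quad (Fin (2 * C) → Prop)
  refine ⟨12 + 2 * R + 98304 * C * R.choose 4 + 1, ?_⟩
  rintro n hn ⟨F, hV, hF, hcov⟩
  haveI : NeZero n := ⟨by omega⟩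
  rcases Nat.eq_zero_or_pos C with rfl | hC
  · obtain ⟨κ, -⟩ := hcov (qv (n := n) ⟨0, by omega⟩ ⟨1, by omega⟩ ⟨2, by omega⟩ ⟨3, by omega⟩)
      (isVec_qv (by simp) (by simp) (by simp) (by simp) (by simp) (by simp))
    have := κ.2
    simp at this
  · have := classes_core hC hR4 (fun lam T hT => hR (Fin n) lam T hT) F hV hF hcov
      (by omega) (by omega)
    omega

end Pool.Agent.R745.SJ
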