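import Mathlib

/-!
# Ramsey and supersaturation lemmas
-/

set_option autoImplicit false
open Finset

namespace Pool.Agent.R745.SJ

/-- Ramsey number recursion -/
def Rn (q : ℕ) : ℕ → ℕ
  | 0 => 0
  | M + 1 => q * Rn q M + 1

theorem exists_list {α Γ : Type*} [DecidableEq α] [Fintype Γ] [DecidableEq Γ] [Nonempty Γ]
    (f : α → α → Γ) (M : ℕ) : ∀ T : Finset α, Rn (Fintype.card Γ) M ≤ T.card →
    ∃ l : List (α × Γ), l.length = M ∧ (∀ p ∈ l, p.1 ∈ T) ∧
      l.Pairwise (fun p r => p.1 ≠ r.1 ∧ f p.1 r.1 = p.2) := by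
  induction M with
  | zero =>
    intro T _
    exact ⟨[], rfl, by simp, List.Pairwise.nil⟩
  | succ M ih =>
    intro T hT
    rw [Rn] at hT
    obtain ⟨x, hx⟩ : T.Nonempty := by
      rw [← Finset.card_pos]
      omega
    have hcard : Fintype.card Γ * Rn (Fintype.card Γ) M ≤ (T.erase x).card := by
      rw [Finset.card_erase_of_mem hx]
      omega
    obtain ⟨γ, -, hγ⟩ := Finset.exists_le_card_fiber_of_mul_le_card_of_maps_to
      (s := T.erase x) (t := (Finset.univ : Finset Γ)) (f := fun y => f x y)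
      (fun _ _ => Finset.mem_univ _) Finset.univ_nonempty
      (by rw [Finset.card_univ]; exact hcard)
    obtain ⟨l, hl, hlT, hlp⟩ := ih _ hγ
    refine ⟨(x, γ) :: l, by simp [hl], ?_, ?_⟩
    · intro p hp
      rcases List.mem_cons.1 hp with rfl | hp
      · exact hx
      · have := hlT p hp
        rw [Finset.mem_filter, Finset.mem_erase] at this
        exact this.1.2
    · rw [List.pairwise_cons]
      refine ⟨fun p hp => ?_, hlp⟩
      have := hlT p hp
      rw [Finset.mem_filter, Finset.mem_erase] at this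
      exact ⟨fun h => this.1.1 h.symm, this.2⟩

/-- The configuration we need. -/
theorem exists_quad (Λ : Type*) [Fintype Λ] [DecidableEq Λ] [Nonempty Λ] :
    ∃ R : ℕ, 4 ≤ R ∧ ∀ (α : Type) [DecidableEq α] (lam : α → α → Λ) (T : Finset α), R ≤ T.card →
      ∃ x1 ∈ T, ∃ x2 ∈ T, ∃ x3 ∈ T, ∃ x4 ∈ T, x1 ≠ x2 ∧ x1 ≠ x3 ∧ x1 ≠ x4 ∧ x2 ≠ x3 ∧ x2 ≠ x4 ∧
        x3 ≠ x4 ∧ lam x1 x2 = lam x1 x3 ∧ lam x2 x3 = lam x2 x4 ∧ lam x3 x1 = lam x3 x2 ∧
        lam x4 x1 = lam x4 x2 := by
  set q := Fintype.card Λ with hq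
  refine ⟨Rn (Fintype.card (Λ × Λ)) (q + 3) + 4, by omega, fun α _ lam T hT => ?_⟩
  obtain ⟨l, hl, hlT, hlp⟩ := exists_list (fun x y => (lam x y, lam y x)) (q + 3) T (by omega)
  rw [List.pairwise_iff_get] at hlp
  have hlt : ∀ i : ℕ, i < q + 3 → i < l.length := fun i hi => by omega
  -- pigeonhole
  obtain ⟨i, j, hij, hcol⟩ : ∃ i j : Fin (q + 1), i < j ∧
      (l.get ⟨i, hlt _ (by omega)⟩).2.2 = (l.get ⟨j, hlt _ (by omega)⟩).2.2 := by
    obtain ⟨i, j, hne, he⟩ := Fintype.exists_ne_map_eq_of_card_lt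
      (fun i : Fin (q + 1) => (l.get ⟨i, hlt _ (by omega)⟩).2.2) (by simp [hq])
    rcases lt_or_gt_of_ne hne with h | h
    · exact ⟨i, j, h, he⟩
    · exact ⟨j, i, h, he.symm⟩
  let I : Fin l.length := ⟨i, hlt _ (by omega)⟩
  let J : Fin l.length := ⟨j, hlt _ (by omega)⟩
  let K : Fin l.length := ⟨q + 1, hlt _ (by omega)⟩
  let L : Fin l.length := ⟨q + 2, hlt _ (by omega)⟩
  have hIJ : I < J := hij
  have hJK : J < K := by
    show (j : ℕ) < q + 1
    exact j.2
  have hKL : K < L := by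
    show q + 1 < q + 2
    omega
  have a1 := hlp I J hIJ
  have a2 := hlp I K (hIJ.trans hJK)
  have a3 := hlp I L (hIJ.trans (hJK.trans hKL))
  have a4 := hlp J K hJK
  have a5 := hlp J L (hJK.trans hKL)
  have a6 := hlp K L hKL
  have hcol' : (l.get I).2.2 = (l.get J).2.2 := hcol
  refine ⟨(l.get I).1, hlT _ (List.get_mem _ _), (l.get J).1, hlT _ (List.get_mem _ _),
    (l.get K).1, hlT _ (List.get_mem _ _), (l.get L).1, hlT _ (List.get_mem _ _),
    a1.1, a2.1, a3.1, a4.1, a5.1, a6.1, ?_, ?_, ?_, ?_⟩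
  · have e1 := congrArg Prod.fst a1.2
    have e2 := congrArg Prod.fst a2.2
    simp only at e1 e2
    rw [e1, e2]
  · have e1 := congrArg Prod.fst a4.2
    have e2 := congrArg Prod.fst a5.2
    simp only at e1 e2
    rw [e1, e2]
  · have e1 := congrArg Prod.snd a2.2
    have e2 := congrArg Prod.snd a4.2
    simp only at e1 e2
    rw [e1, e2, hcol']
  · have e1 := congrArg Prod.snd a3.2
    have e2 := congrArg Prod.snd a5.2
    simp only at e1 e2
    rw [e1, e2, hcol']

/-- supersaturation by double counting -/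
theorem supersat {α : Type*} [DecidableEq α] (I : Finset α) (E : Finset (Finset α)) {R : ℕ}
    (hR : 4 ≤ R) (hN : R ≤ I.card) (hE : ∀ A ∈ E, A.card = 4)
    (h : ∀ T ⊆ I, T.card = R → ∃ A ∈ E, A ⊆ T) :
    I.card.choose 4 ≤ E.card * R.choose 4 := by
  classical
  set N := I.card with hNd
  have h1 : (I.powersetCard R) ⊆ (E.filter (· ⊆ I)).biUnion
      (fun A => (I.powersetCard R).filter (fun T => A ⊆ T)) := by
    intro T hT
    rw [Finset.mem_powersetCard] at hT
    obtain ⟨A, hA, hAT⟩ := h T hT.1 hT.2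
    rw [Finset.mem_biUnion]
    exact ⟨A, Finset.mem_filter.2 ⟨hA, hAT.trans hT.1⟩,
      Finset.mem_filter.2 ⟨Finset.mem_powersetCard.2 hT, hAT⟩⟩
  have h2 : ∀ A ∈ E.filter (· ⊆ I),
      ((I.powersetCard R).filter (fun T => A ⊆ T)).card ≤ (N - 4).choose (R - 4) := by
    intro A hA
    rw [Finset.mem_filter] at hA
    have hA4 := hE A hA.1
    have hc : ((I \ A).powersetCard (R - 4)).card = (N - 4).choose (R - 4) := by
      rw [Finset.card_powersetCard, Finset.card_sdiff_of_subset hA.2, hA4]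
    rw [← hc]
    apply Finset.card_le_card_of_injOn (fun T => T \ A)
    · intro T hT
      have hT' := Finset.mem_filter.1 (Finset.mem_coe.1 hT)
      rw [Finset.mem_powersetCard] at hT'
      apply Finset.mem_coe.2
      rw [Finset.mem_powersetCard]
      refine ⟨Finset.sdiff_subset_sdiff hT'.1.1 (Finset.Subset.refl _), ?_⟩
      rw [Finset.card_sdiff_of_subset hT'.2, hT'.1.2, hA4]
    · intro T hT T' hT' hTT
      have k1 := (Finset.mem_filter.1 (Finset.mem_coe.1 hT)).2
      have k2 := (Finset.mem_filter.1 (Finset.mem_coe.1 hT')).2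
      have : T \ A ∪ A = T' \ A ∪ A := by
        simp only at hTT
        rw [hTT]
      rwa [Finset.sdiff_union_of_subset k1, Finset.sdiff_union_of_subset k2] at this
  have h3 : N.choose R ≤ E.card * (N - 4).choose (R - 4) := by
    calc N.choose R = (I.powersetCard R).card := by rw [Finset.card_powersetCard]
      _ ≤ _ := Finset.card_le_card h1
      _ ≤ (E.filter (· ⊆ I)).card * (N - 4).choose (R - 4) := Finset.card_biUnion_le_card_mul _ _ _ h2
      _ ≤ E.card * (N - 4).choose (R - 4) :=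
          Nat.mul_le_mul_right _ (Finset.card_filter_le _ _)
  have h4 := Nat.choose_mul (n := N) hR
  have h5 : 0 < (N - 4).choose (R - 4) := Nat.choose_pos (by omega)
  have h6 : N.choose 4 * (N - 4).choose (R - 4) ≤ E.card * R.choose 4 * (N - 4).choose (R - 4) := by
    rw [← h4]
    calc N.choose R * R.choose 4 ≤ (E.card * (N - 4).choose (R - 4)) * R.choose 4 :=
          Nat.mul_le_mul_right _ h3
      _ = _ := by ring
  exact Nat.le_of_mul_le_mul_right h6 h5

end Pool.Agent.R745.SJ
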